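import Mathlib

set_option autoImplicit false

/-!
Avoider-Forcer versus Maker-Breaker: every finite hypergraph has gap factor less than `2`, and at
most `3/2` if its winning sets have at most four elements.
-/

namespace Pool.Agent.Results.MP_c0ff68_co.BelowTwo

open Finset

variable {V : Type} [Fintype V] [DecidableEq V]

/-- `SecondForces W n b X Y`: in the position in which player one (Maker, or Avoider) owns the set
`X`, player two (Breaker, or Forcer) owns the set `Y`, exactly `n` elements remain to be claimed,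
and it is player one's turn if `b = true` and player two's turn if `b = false`, player two has a
strategy for the rest of the game which ensures that the final set of player one satisfies `W`.
The players alternately claim one unclaimed element until no element is left. -/
def SecondForces (W : Finset V → Prop) : ℕ → Bool → Finset V → Finset V → Prop
  | 0, _, X, _ => W X
  | n + 1, true, X, Y => ∀ v, v ∉ X → v ∉ Y → SecondForces W n false (insert v X) Y
  | n + 1, false, X, Y => ∃ v, v ∉ X ∧ v ∉ Y ∧ SecondForces W n true X (insert v Y)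

/-- Forcer wins the Avoider-Forcer game on `F`; Avoider moves first iff `b = true`. -/
def ForcerWins (F : Finset (Finset V)) (b : Bool) : Prop :=
  SecondForces (fun X => ∃ A ∈ F, A ⊆ X) (Fintype.card V) b ∅ ∅

/-- Breaker can ensure in the Maker-Breaker game on `F` that finally Maker's set `M` satisfies
`|M ∩ A| ≤ |A| / c` for all `A ∈ F`; Maker moves first iff `b = true`. -/
def BreakerHolds (F : Finset (Finset V)) (c : ℝ) (b : Bool) : Prop :=
  SecondForces (fun M => ∀ A ∈ F, ((M ∩ A).card : ℝ) ≤ (A.card : ℝ) / c) (Fintype.card V) b ∅ ∅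

/-- The finite hypergraph `F` (all of whose winning sets are nonempty) has gap factor at least
`c`. -/
def GapFactorAtLeast (F : Finset (Finset V)) (c : ℝ) : Prop :=
  (∀ A ∈ F, A.Nonempty) ∧ 1 ≤ c ∧ ∀ b : Bool, ForcerWins F b ∧ BreakerHolds F c b

/-- The set of all real numbers `c` such that some finite hypergraph has gap factor at least `c`;
its supremum is `c*`. -/
def gapFactors : Set ℝ :=
  {c | ∃ (n : ℕ) (F : Finset (Finset (Fin n))), GapFactorAtLeast F c}

/-! ### Maker gets at least half of what is left of any set -/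

lemma maker_half (F : Finset (Finset V)) (c : ℝ) (A : Finset V) (hA : A ∈ F) :
    ∀ (n : ℕ) (b : Bool) (X Y : Finset V), Disjoint X Y → ((X ∪ Y)ᶜ).card = n →
      SecondForces (fun M => ∀ A ∈ F, ((M ∩ A).card : ℝ) ≤ (A.card : ℝ) / c) n b X Y →
      ((((X ∩ A).card + ((A \ (X ∪ Y)).card + (if b then 1 else 0)) / 2 : ℕ)) : ℝ) ≤
        (A.card : ℝ) / c := by
  intro n
  induction n with
  | zero =>
    intro b X Y _ hn h
    have h1 : A \ (X ∪ Y) = ∅ := by
      rw [card_eq_zero] at hn
      rw [sdiff_eq_empty_iff_subset]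
      intro a _
      by_contra ha
      have : a ∈ (X ∪ Y)ᶜ := by simpa using ha
      rw [hn] at this
      simp at this
    have h2 := h A hA
    rw [h1]
    refine le_trans ?_ h2
    cases b <;> simp
  | succ n ih =>
    intro b X Y hXY hn h
    cases b with
    | true =>
      -- player one picks an element of `A` if possible
      by_cases hne : (A \ (X ∪ Y)).Nonempty
      · obtain ⟨v, hv⟩ := hne
        rw [mem_sdiff, mem_union, not_or] at hv
        obtain ⟨hvA, hvX, hvY⟩ := hv
        have h1 := h v hvX hvY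
        have hd : Disjoint (insert v X) Y := by
          rw [disjoint_insert_left]; exact ⟨hvY, hXY⟩
        have hc : ((insert v X ∪ Y)ᶜ).card = n := by
          have : (insert v X ∪ Y)ᶜ = ((X ∪ Y)ᶜ).erase v := by
            ext a; simp only [mem_compl, mem_union, mem_insert, mem_erase]; tauto
          rw [this, card_erase_of_mem (by simp [hvX, hvY]), hn]; rfl
        have h2 := ih false (insert v X) Y hd hc h1
        refine le_trans ?_ h2
        have e1 : (insert v X ∩ A).card = (X ∩ A).card + 1 := by
          rw [insert_inter_of_mem hvA, card_insert_of_notMem (by simp [hvX])]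
        have e2 : (A \ (insert v X ∪ Y)).card + 1 = (A \ (X ∪ Y)).card := by
          have : A \ (insert v X ∪ Y) = (A \ (X ∪ Y)).erase v := by
            ext a; simp only [mem_sdiff, mem_union, mem_insert, mem_erase]; tauto
          rw [this]
          exact card_erase_add_one (by simp [hvA, hvX, hvY])
        rw [e1, ← e2]
        norm_cast
        simp only [if_true, if_false]
        omega
      · rw [not_nonempty_iff_eq_empty] at hne
        -- all of `A` is claimed; any move
        have hpos : 0 < ((X ∪ Y)ᶜ).card := by omega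
        obtain ⟨v, hv⟩ := card_pos.mp hpos
        rw [mem_compl, mem_union, not_or] at hv
        obtain ⟨hvX, hvY⟩ := hv
        have h1 := h v hvX hvY
        have hd : Disjoint (insert v X) Y := by
          rw [disjoint_insert_left]; exact ⟨hvY, hXY⟩
        have hc : ((insert v X ∪ Y)ᶜ).card = n := by
          have : (insert v X ∪ Y)ᶜ = ((X ∪ Y)ᶜ).erase v := by
            ext a; simp only [mem_compl, mem_union, mem_insert, mem_erase]; tauto
          rw [this, card_erase_of_mem (by simp [hvX, hvY]), hn]; rfl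
        have h2 := ih false (insert v X) Y hd hc h1
        refine le_trans ?_ h2
        have e1 : (X ∩ A).card ≤ (insert v X ∩ A).card :=
          card_le_card (inter_subset_inter_right (subset_insert v X))
        rw [hne]
        norm_cast
        simp only [card_empty, if_true, if_false]
        omega
    | false =>
      obtain ⟨v, hvX, hvY, h1⟩ := h
      have hd : Disjoint X (insert v Y) := by
        rw [disjoint_insert_right]; exact ⟨hvX, hXY⟩
      have hc : ((X ∪ insert v Y)ᶜ).card = n := by
        have : (X ∪ insert v Y)ᶜ = ((X ∪ Y)ᶜ).erase v := by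
          ext a; simp only [mem_compl, mem_union, mem_insert, mem_erase]; tauto
        rw [this, card_erase_of_mem (by simp [hvX, hvY]), hn]; rfl
      have h2 := ih true X (insert v Y) hd hc h1
      refine le_trans ?_ h2
      have e2 : (A \ (X ∪ Y)).card ≤ (A \ (X ∪ insert v Y)).card + 1 := by
        have : A \ (X ∪ Y) ⊆ insert v (A \ (X ∪ insert v Y)) := by
          intro a ha
          simp only [mem_sdiff, mem_union, mem_insert] at ha ⊢
          tauto
        exact (card_le_card this).trans (card_insert_le _ _)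
      norm_cast
      simp only [if_true, if_false]
      omega

/-! ### The first reply of Breaker -/

lemma first_reply (F : Finset (Finset V)) (c : ℝ)
    (hc : ∀ A ∈ F, (A.card : ℝ) / c < ((A.card / 2 : ℕ) : ℝ) + 1)
    (h : BreakerHolds F c true) (x : V) (hx : ∃ A ∈ F, x ∈ A) :
    ∃ y, y ≠ x ∧ ∀ A ∈ F, x ∈ A → y ∈ A := by
  have hV : 0 < Fintype.card V := Fintype.card_pos_iff.mpr ⟨x⟩
  obtain ⟨n, hn⟩ : ∃ n, Fintype.card V = n + 1 := ⟨Fintype.card V - 1, by omega⟩
  unfold BreakerHolds at h
  rw [hn] at h
  have h1 := h x (by simp) (by simp)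
  have hins : insert x (∅ : Finset V) = {x} := by ext a; simp
  rw [hins] at h1
  cases n with
  | zero =>
    exfalso
    obtain ⟨A, hA, hxA⟩ := hx
    have h2 := h1 A hA
    have h3 := hc A hA
    have hA1 : A.card = 1 := by
      have h4 : A.card ≤ 1 := by
        calc A.card ≤ Fintype.card V := card_le_univ A
          _ = 1 := by omega
      have h5 : 0 < A.card := card_pos.mpr ⟨x, hxA⟩
      omega
    have h6 : (({x} : Finset V) ∩ A).card = 1 := by
      rw [singleton_inter_of_mem hxA]; simp
    rw [h6] at h2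
    rw [hA1] at h2 h3
    norm_num at h2 h3
    linarith
  | succ m =>
    obtain ⟨y, hy1, -, h2⟩ := h1
    refine ⟨y, by simpa using hy1, fun A hA hxA => ?_⟩
    by_contra hyA
    have hyx : y ≠ x := by simpa using hy1
    have hcard : (({x} ∪ insert y (∅ : Finset V))ᶜ).card = m := by
      have e : ({x} ∪ insert y (∅ : Finset V)) = {x, y} := by
        ext a; simp
      rw [e, card_compl, card_pair hyx.symm, hn]
      omega
    have h3 := maker_half F c A hA m true {x} (insert y ∅) (by simp [hyx.symm]) hcard h2
    have h4 := hc A hA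
    have e1 : (({x} : Finset V) ∩ A).card = 1 := by
      rw [singleton_inter_of_mem hxA]; simp
    have e2 : (A \ ({x} ∪ insert y (∅ : Finset V))).card + 1 = A.card := by
      have : A \ ({x} ∪ insert y (∅ : Finset V)) = A.erase x := by
        ext a
        simp only [mem_sdiff, mem_union, mem_singleton, mem_insert, notMem_empty, or_false,
          mem_erase]
        constructor
        · rintro ⟨ha, hb⟩; exact ⟨fun hh => hb (Or.inl hh), ha⟩
        · rintro ⟨ha, hb⟩
          refine ⟨hb, ?_⟩
          rintro (hh | hh)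
          · exact ha hh
          · rw [hh] at hb; exact hyA hb
      rw [this]
      exact card_erase_add_one hxA
    rw [e1] at h3
    simp only [if_true] at h3
    rw [e2] at h3
    push_cast at h3
    linarith

/-! ### Twins and the pairing -/

lemma exists_twins (G : Finset (Finset V)) (A₀ : Finset V) (hA₀ : A₀ ∈ G) (hne : A₀.Nonempty)
    (hT : ∀ x, (∃ A ∈ G, x ∈ A) → ∃ y, y ≠ x ∧ ∀ A ∈ G, x ∈ A → y ∈ A) :
    ∃ x y, x ≠ y ∧ (∃ A ∈ G, x ∈ A) ∧ ∀ A ∈ G, (x ∈ A ↔ y ∈ A) := by
  obtain ⟨x₀, hx₀⟩ := hne
  let U : Finset V := univ.filter (fun x => ∃ A ∈ G, x ∈ A)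
  have hU : U.Nonempty := ⟨x₀, by simp only [U, mem_filter, mem_univ, true_and]; exact ⟨A₀, hA₀, hx₀⟩⟩
  obtain ⟨x, hxU, hmax⟩ := exists_max_image U (fun x => (G.filter (fun A => x ∈ A)).card) hU
  have hx : ∃ A ∈ G, x ∈ A := by simpa [U] using hxU
  obtain ⟨y, hyx, hy⟩ := hT x hx
  refine ⟨x, y, hyx.symm, hx, ?_⟩
  have hyU : y ∈ U := by
    obtain ⟨A, hA, hxA⟩ := hx
    simp only [U, mem_filter, mem_univ, true_and]
    exact ⟨A, hA, hy A hA hxA⟩
  have hsub : G.filter (fun A => x ∈ A) ⊆ G.filter (fun A => y ∈ A) := by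
    intro A hA
    rw [mem_filter] at hA ⊢
    exact ⟨hA.1, hy A hA.1 hA.2⟩
  have heq := eq_of_subset_of_card_le hsub (hmax y hyU)
  intro A hA
  constructor
  · exact hy A hA
  · intro hyA
    have : A ∈ G.filter (fun A => x ∈ A) := by
      rw [heq, mem_filter]; exact ⟨hA, hyA⟩
    exact (mem_filter.mp this).2

lemma exists_pairing : ∀ (m : ℕ) (S : Finset V) (G : Finset (Finset V)), S.card ≤ m →
    (∀ A ∈ G, A ⊆ S ∧ A.Nonempty) →
    (∀ x, (∃ A ∈ G, x ∈ A) → ∃ y, y ≠ x ∧ ∀ A ∈ G, x ∈ A → y ∈ A) →
    ∃ σ : V → V, (∀ v ∈ S, σ v ∈ S ∧ σ (σ v) = v) ∧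
      (∀ u ∈ S, ∀ v ∈ S, σ u = u → σ v = v → u = v) ∧
      (∀ A ∈ G, ∃ x ∈ A, σ x ∈ A ∧ σ x ≠ x) := by
  intro m
  induction m with
  | zero =>
    intro S G hS hG _
    have hS0 : S = ∅ := by rw [← card_eq_zero]; omega
    subst hS0
    refine ⟨id, by simp, by simp, fun A hA => ?_⟩
    obtain ⟨h1, h2⟩ := hG A hA
    obtain ⟨a, ha⟩ := h2
    exact absurd (h1 ha) (by simp)
  | succ m ih =>
    intro S G hS hG hT
    -- find two elements of `S` which are twins
    by_cases hex : ∃ x y, x ∈ S ∧ y ∈ S ∧ x ≠ y ∧ ∀ A ∈ G, (x ∈ A ↔ y ∈ A)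
    · obtain ⟨x, y, hxS, hyS, hxy, htw⟩ := hex
      have hcard : (S \ {x, y}).card ≤ m := by
        have hsub : ({x, y} : Finset V) ⊆ S := by
          intro a ha
          rw [mem_insert, mem_singleton] at ha
          rcases ha with rfl | rfl
          · exact hxS
          · exact hyS
        have := card_sdiff_of_subset hsub
        rw [card_pair hxy] at this
        have h2 : 2 ≤ S.card := by
          have := card_le_card hsub
          rwa [card_pair hxy] at this
        omega
      obtain ⟨σ, h1, h2, h3⟩ := ih (S \ {x, y}) (G.filter (fun A => x ∉ A)) hcard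
        (by
          intro A hA
          rw [mem_filter] at hA
          obtain ⟨hAG, hxA⟩ := hA
          refine ⟨?_, (hG A hAG).2⟩
          intro a ha
          rw [mem_sdiff, mem_insert, mem_singleton, not_or]
          refine ⟨(hG A hAG).1 ha, ?_, ?_⟩
          · rintro rfl; exact hxA ha
          · rintro rfl; exact hxA ((htw A hAG).mpr ha))
        (by
          rintro u ⟨A, hA, huA⟩
          obtain ⟨w, hwu, hw⟩ := hT u ⟨A, (mem_filter.mp hA).1, huA⟩
          exact ⟨w, hwu, fun B hB huB => hw B (mem_filter.mp hB).1 huB⟩)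
      refine ⟨fun v => if v = x then y else if v = y then x else σ v, ?_, ?_, ?_⟩
      · intro v hv
        by_cases hvx : v = x
        · subst hvx
          simp only [if_true]
          refine ⟨hyS, ?_⟩
          rw [if_neg hxy.symm]
        · by_cases hvy : v = y
          · subst hvy
            simp only [if_neg hvx, if_true]
            exact ⟨hxS, trivial⟩
          · have hvm : v ∈ S \ {x, y} := by simp [hv, hvx, hvy]
            obtain ⟨h4, h5⟩ := h1 v hvm
            rw [mem_sdiff, mem_insert, mem_singleton, not_or] at h4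
            simp only [if_neg hvx, if_neg hvy, if_neg h4.2.1, if_neg h4.2.2]
            exact ⟨h4.1, h5⟩
      · intro u hu v hv hu1 hv1
        have key : ∀ w ∈ S, (if w = x then y else if w = y then x else σ w) = w →
            w ∈ S \ {x, y} ∧ σ w = w := by
          intro w hw hw1
          by_cases hwx : w = x
          · subst hwx
            simp only [if_true] at hw1
            exact absurd hw1.symm hxy
          · by_cases hwy : w = y
            · subst hwy
              simp only [if_neg hwx, if_true] at hw1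
              exact absurd hw1 hxy
            · simp only [if_neg hwx, if_neg hwy] at hw1
              exact ⟨by simp [hw, hwx, hwy], hw1⟩
        obtain ⟨a1, a2⟩ := key u hu hu1
        obtain ⟨b1, b2⟩ := key v hv hv1
        exact h2 u a1 v b1 a2 b2
      · intro A hA
        by_cases hxA : x ∈ A
        · refine ⟨x, hxA, ?_, ?_⟩
          · simp only [if_true]; exact (htw A hA).mp hxA
          · simp only [if_true]; exact hxy.symm
        · obtain ⟨w, hwA, hw1, hw2⟩ := h3 A (by rw [mem_filter]; exact ⟨hA, hxA⟩)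
          have hwx : w ≠ x := by rintro rfl; exact hxA hwA
          have hwy : w ≠ y := by rintro rfl; exact hxA ((htw A hA).mpr hwA)
          refine ⟨w, hwA, ?_, ?_⟩
          · simp only [if_neg hwx, if_neg hwy]; exact hw1
          · simp only [if_neg hwx, if_neg hwy]; exact hw2
    · -- no twins: `G` is empty and `S` has at most one element
      have hG0 : ∀ A, A ∉ G := by
        intro A hA
        obtain ⟨x, y, hxy, ⟨B, hB, hxB⟩, htw⟩ := exists_twins G A hA (hG A hA).2 hT
        exact hex ⟨x, y, (hG B hB).1 hxB, (hG B hB).1 ((htw B hB).mp hxB), hxy, htw⟩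
      refine ⟨id, by simp, ?_, fun A hA => absurd hA (hG0 A)⟩
      intro u hu v hv _ _
      by_contra huv
      exact hex ⟨u, v, hu, hv, huv, fun A hA => absurd hA (hG0 A)⟩

/-! ### Avoider's pairing strategy -/

lemma avoider_pairing (F : Finset (Finset V)) (σ : V → V) (hinv : ∀ v, σ (σ v) = v)
    (hF : ∀ A ∈ F, ∃ x ∈ A, σ x ∈ A ∧ σ x ≠ x) :
    ∀ (n : ℕ) (X Y : Finset V),
      (∀ v, v ∉ X → v ∉ Y → σ v ∉ X ∧ σ v ∉ Y ∧ σ v ≠ v) →
      (∀ v ∈ X, σ v ∈ X → σ v = v) →
      ¬ SecondForces (fun X => ∃ A ∈ F, A ⊆ X) n false X Y := by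
  intro n
  induction n using Nat.strong_induction_on with
  | _ n ih =>
    intro X Y h1 h2 h
    have hterm : ¬ ∃ A ∈ F, A ⊆ X := by
      rintro ⟨A, hA, hAX⟩
      obtain ⟨x, hx, hx1, hx2⟩ := hF A hA
      exact hx2 (h2 x (hAX hx) (hAX hx1))
    match n, ih, h with
    | 0, _, h => exact hterm h
    | 1, _, h =>
      obtain ⟨v, _, _, h3⟩ := h
      exact hterm h3
    | n + 2, ih, h =>
      obtain ⟨v, hvX, hvY, h3⟩ := h
      obtain ⟨g1, g2, g3⟩ := h1 v hvX hvY
      have h4 := h3 (σ v) g1 (by rw [mem_insert, not_or]; exact ⟨g3, g2⟩)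
      refine ih n (by omega) (insert (σ v) X) (insert v Y) ?_ ?_ h4
      · intro u hu1 hu2
        rw [mem_insert, not_or] at hu1 hu2
        obtain ⟨k1, k2, k3⟩ := h1 u hu1.2 hu2.2
        refine ⟨?_, ?_, k3⟩
        · rw [mem_insert, not_or]
          refine ⟨fun hh => hu2.1 ?_, k1⟩
          rw [← hinv u, hh, hinv]
        · rw [mem_insert, not_or]
          refine ⟨fun hh => hu1.1 ?_, k2⟩
          rw [← hh, hinv]
      · intro w hw hw1
        rw [mem_insert] at hw hw1
        rcases hw with rfl | hw
        · rw [hinv] at hw1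
          rcases hw1 with hw1 | hw1
          · exact absurd hw1.symm g3
          · exact absurd hw1 hvX
        · rcases hw1 with hw1 | hw1
          · exfalso
            apply hvX
            have : w = v := by rw [← hinv w, hw1, hinv]
            rwa [← this]
          · exact h2 w hw hw1

lemma not_forcerWins (F : Finset (Finset V)) (σ : V → V) (hinv : ∀ v, σ (σ v) = v)
    (hfix : ∀ u v, σ u = u → σ v = v → u = v)
    (hF : ∀ A ∈ F, ∃ x ∈ A, σ x ∈ A ∧ σ x ≠ x) : ¬ ∀ b, ForcerWins F b := by
  intro h
  by_cases hz : ∃ z, σ z = z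
  · obtain ⟨z, hz⟩ := hz
    have h1 := h true
    unfold ForcerWins at h1
    have hV : 0 < Fintype.card V := Fintype.card_pos_iff.mpr ⟨z⟩
    obtain ⟨n, hn⟩ : ∃ n, Fintype.card V = n + 1 := ⟨Fintype.card V - 1, by omega⟩
    rw [hn] at h1
    have h2 := h1 z (by simp) (by simp)
    refine avoider_pairing F σ hinv hF n (insert z ∅) ∅ ?_ ?_ h2
    · intro v hv _
      have hvz : v ≠ z := by simpa using hv
      refine ⟨?_, by simp, fun hh => hvz (hfix v z hh hz)⟩
      simp only [insert_empty_eq, mem_singleton]
      intro hh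
      apply hvz
      rw [← hinv v, hh, hz]
    · intro v hv _
      have hvz : v = z := by simpa using hv
      rw [hvz]; exact hz
  · have h1 := h false
    refine avoider_pairing F σ hinv hF (Fintype.card V) ∅ ∅ ?_ ?_ h1
    · intro v _ _
      exact ⟨by simp, by simp, fun hh => hz ⟨v, hh⟩⟩
    · intro v hv
      simp at hv

/-- Every finite hypergraph with gap factor at least `c` has a winning set `A` with
`c (⌊|A|/2⌋ + 1) ≤ |A|`. -/
lemma exists_set (F : Finset (Finset V)) (c : ℝ) (h : GapFactorAtLeast F c) :
    ∃ A ∈ F, c * (((A.card / 2 : ℕ) : ℝ) + 1) ≤ (A.card : ℝ) := by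
  obtain ⟨hne, hc, hb⟩ := h
  have hc0 : (0 : ℝ) < c := by linarith
  by_contra hcon
  push Not at hcon
  have hlt : ∀ A ∈ F, (A.card : ℝ) / c < ((A.card / 2 : ℕ) : ℝ) + 1 := by
    intro A hA
    rw [div_lt_iff₀ hc0]
    have := hcon A hA
    linarith
  have hT := first_reply F c hlt (hb true).2
  obtain ⟨σ, h1, h2, h3⟩ := exists_pairing (Fintype.card V) univ F (by simp)
    (fun A hA => ⟨subset_univ A, hne A hA⟩) hT
  exact not_forcerWins F σ (fun v => (h1 v (mem_univ v)).2)
    (fun u v hu hv => h2 u (mem_univ u) v (mem_univ v) hu hv) h3 (fun b => (hb b).1)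

lemma lt_two (F : Finset (Finset V)) (c : ℝ) (h : GapFactorAtLeast F c) : c < 2 := by
  obtain ⟨A, hA, hle⟩ := exists_set F c h
  have hc0 : (0 : ℝ) < c := by linarith [h.2.1]
  have h1 : (A.card : ℝ) < 2 * (((A.card / 2 : ℕ) : ℝ) + 1) := by
    have : A.card < 2 * (A.card / 2 + 1) := by omega
    exact_mod_cast this
  have h2 : (0 : ℝ) < ((A.card / 2 : ℕ) : ℝ) + 1 := by positivity
  by_contra hcon
  push Not at hcon
  nlinarith

lemma le_three_halves (F : Finset (Finset V)) (c : ℝ) (h : GapFactorAtLeast F c)
    (h4 : ∀ A ∈ F, A.card ≤ 4) : c ≤ 3 / 2 := by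
  obtain ⟨A, hA, hle⟩ := exists_set F c h
  have h5 := h4 A hA
  have hc0 : (0 : ℝ) < c := by linarith [h.2.1]
  generalize A.card = k at h5 hle
  interval_cases k <;> norm_num at hle <;> linarith

/-- The theorem: if the finite hypergraph `F` has gap factor at least `c`, then
`c (⌊|A|/2⌋ + 1) ≤ |A|` for some winning set `A`, so that `c < 2`, and even `c ≤ 3/2` if all winning
sets have at most four elements; in particular `c* ≤ 2`. -/
theorem result :
    (∀ (V : Type) [Fintype V] [DecidableEq V] (F : Finset (Finset V)) (c : ℝ),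
      GapFactorAtLeast F c →
        (∃ A ∈ F, c * (((A.card / 2 : ℕ) : ℝ) + 1) ≤ (A.card : ℝ)) ∧ c < 2 ∧
        ((∀ A ∈ F, A.card ≤ 4) → c ≤ 3 / 2)) ∧
    sSup gapFactors ≤ 2 := by
  refine ⟨fun V _ _ F c h => ⟨exists_set F c h, lt_two F c h, le_three_halves F c h⟩, ?_⟩
  apply Real.sSup_le
  · rintro c ⟨n, F, h⟩
    exact (lt_two F c h).le
  · norm_num

end Pool.Agent.Results.MP_c0ff68_co.BelowTwo
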